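import Mathlib

/-!
# Merging classes of a map on the integers

Two integers are in the same merging class of `f` if their orbits have an element in common. From a bound
`A X / y ^ c` for the number of the integers of `[-X, X]` whose orbit avoids `[-y, y]` we deduce bounds for the
number of the classes which meet `[-y, y]` and of the classes which contain at least `ε X` integers of `[-X, X]`.
-/

set_option autoImplicit false

namespace Pool.Agent.N317.CL

open Finset Filter Topology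

/-- the merging class of `a` -/
def cl (f : ℤ → ℤ) (a : ℤ) : Set ℤ := {x : ℤ | ∃ j k : ℕ, f^[j] x = f^[k] a}

/-- the number of elements of `E` in `[-X, X]` -/
noncomputable def num (E : Set ℤ) (X : ℝ) : ℝ := ({x : ℤ | x ∈ E ∧ |(x : ℝ)| ≤ X}.ncard : ℝ)

/-- the least absolute value of an element of `E` -/
noncomputable def least (E : Set ℤ) : ℕ := sInf (Int.natAbs '' E)

/-- `E` is a merging class -/
def IsCl (f : ℤ → ℤ) (E : Set ℤ) : Prop := ∃ a : ℤ, E = cl f a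

variable {f : ℤ → ℤ}

theorem merge_trans {x y z : ℤ} (h1 : ∃ j k : ℕ, f^[j] x = f^[k] y)
    (h2 : ∃ j k : ℕ, f^[j] y = f^[k] z) : ∃ j k : ℕ, f^[j] x = f^[k] z := by
  obtain ⟨j, k, h⟩ := h1
  obtain ⟨j', k', h'⟩ := h2
  refine ⟨j' + j, k + k', ?_⟩
  rw [Function.iterate_add_apply, h, ← Function.iterate_add_apply, Nat.add_comm j' k,
    Function.iterate_add_apply, h', ← Function.iterate_add_apply]

theorem merge_symm {x y : ℤ} (h : ∃ j k : ℕ, f^[j] x = f^[k] y) :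
    ∃ j k : ℕ, f^[j] y = f^[k] x := by
  obtain ⟨j, k, h⟩ := h
  exact ⟨k, j, h.symm⟩

theorem cl_eq {a x : ℤ} (h : x ∈ cl f a) : cl f a = cl f x := by
  ext z
  exact ⟨fun hz => merge_trans hz (merge_symm h), fun hz => merge_trans hz h⟩

theorem self_mem (f : ℤ → ℤ) (a : ℤ) : a ∈ cl f a := ⟨0, 0, rfl⟩

theorem IsCl.eq {E E' : Set ℤ} (h : IsCl f E) (h' : IsCl f E') {x : ℤ} (hx : x ∈ E) (hx' : x ∈ E') :
    E = E' := by
  obtain ⟨a, rfl⟩ := h
  obtain ⟨b, rfl⟩ := h'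
  rw [cl_eq hx, cl_eq hx']

/-- a class is invariant -/
theorem IsCl.inv {E : Set ℤ} (h : IsCl f E) (x : ℤ) : x ∈ E ↔ f x ∈ E := by
  obtain ⟨a, rfl⟩ := h
  constructor
  · rintro ⟨j, m, h⟩
    refine ⟨j, m + 1, ?_⟩
    rw [← Function.iterate_succ_apply, Function.iterate_succ_apply', h, Function.iterate_succ_apply']
  · rintro ⟨j, m, h⟩
    exact ⟨j + 1, m, h⟩

theorem IsCl.iter {E : Set ℤ} (h : IsCl f E) {x : ℤ} (hx : x ∈ E) (k : ℕ) : f^[k] x ∈ E := by
  induction k with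
  | zero => exact hx
  | succ k ih =>
    rw [Function.iterate_succ_apply']
    exact (h.inv _).1 ih

theorem cast_natAbs' (z : ℤ) : |(z : ℝ)| = (z.natAbs : ℝ) := by
  rw [← Int.cast_abs, Int.abs_eq_natAbs, Int.cast_natCast]

theorem least_le {E : Set ℤ} {x : ℤ} (hx : x ∈ E) : (least E : ℝ) ≤ |(x : ℝ)| := by
  rw [cast_natAbs']
  have h : least E ≤ x.natAbs := Nat.sInf_le (⟨x, hx, rfl⟩ : x.natAbs ∈ Int.natAbs '' E)
  exact_mod_cast h

theorem exists_least {E : Set ℤ} (h : IsCl f E) : ∃ m ∈ E, |(m : ℝ)| = least E := by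
  have hne : (Int.natAbs '' E).Nonempty := by
    obtain ⟨a, rfl⟩ := h
    exact ⟨_, a, self_mem f a, rfl⟩
  obtain ⟨m, hm, h1⟩ := Nat.sInf_mem hne
  refine ⟨m, hm, ?_⟩
  rw [cast_natAbs', h1]
  rfl

theorem fin_set (P : ℤ → Prop) (X : ℝ) : {x : ℤ | |(x : ℝ)| ≤ X ∧ P x}.Finite := by
  apply (Set.finite_Icc (-⌈X⌉) ⌈X⌉).subset
  rintro x ⟨hx, -⟩
  have h1 := abs_le.1 hx
  have h2 := Int.le_ceil X
  rw [Set.mem_Icc]
  constructor
  · have : (-(⌈X⌉ : ℤ) : ℝ) ≤ x := by linarith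
    exact_mod_cast this
  · have : (x : ℝ) ≤ (⌈X⌉ : ℤ) := by linarith
    exact_mod_cast this

theorem fin_num (E : Set ℤ) (X : ℝ) : {x : ℤ | x ∈ E ∧ |(x : ℝ)| ≤ X}.Finite :=
  (fin_set (fun x => x ∈ E) X).subset fun _ hx => ⟨hx.2, hx.1⟩

/-- the orbit never falls below its starting point -/
def Mn (f : ℤ → ℤ) (x : ℤ) : Prop := ∀ n : ℕ, |(x : ℝ)| ≤ |((f^[n] x : ℤ) : ℝ)|

/-- the number of the integers of `[-X, X]` whose orbit avoids `[-y, y]` -/
noncomputable def av (f : ℤ → ℤ) (X y : ℝ) : ℝ :=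
  ({x : ℤ | |(x : ℝ)| ≤ X ∧ ∀ n : ℕ, y < |((f^[n] x : ℤ) : ℝ)|}.ncard : ℝ)

/-- the number of integers whose orbit never falls below its starting point -/
theorem min_count {c A : ℝ} (hA : 0 < A) (hc1 : c < 1)
    (h : ∀ X y : ℝ, 1 ≤ X → 1 ≤ y → av f X y ≤ A * X / y ^ c) :
    ∀ X : ℝ, 1 ≤ X → ({x : ℤ | |(x : ℝ)| ≤ X ∧ Mn f x}.ncard : ℝ) ≤
      max 3 (A * 2 ^ c / (1 - 2 ^ (-(1 - c)))) * X ^ (1 - c) := by
  have hη : 0 < 1 - c := by linarith
  have h2 : (2 : ℝ) ^ (-(1 - c)) < 1 := Real.rpow_lt_one_of_one_lt_of_neg (by norm_num) (by linarith)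
  have h3 : 0 < 1 - (2 : ℝ) ^ (-(1 - c)) := by linarith
  have h2c : (0 : ℝ) < 2 ^ c := Real.rpow_pos_of_pos (by norm_num) _
  set B : ℝ := max 3 (A * 2 ^ c / (1 - 2 ^ (-(1 - c)))) with hB
  have hB3 : 3 ≤ B := le_max_left _ _
  have hBA : A * 2 ^ c ≤ B * (1 - 2 ^ (-(1 - c))) := by
    have := le_max_right 3 (A * 2 ^ c / (1 - 2 ^ (-(1 - c))))
    rw [← hB, div_le_iff₀ h3] at this
    exact this
  have key : ∀ n : ℕ, ∀ X : ℝ, 1 ≤ X → X < 2 ^ n →
      ({x : ℤ | |(x : ℝ)| ≤ X ∧ Mn f x}.ncard : ℝ) ≤ B * X ^ (1 - c) := by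
    intro n
    induction n with
    | zero => intro X h1 h2; norm_num at h2; linarith
    | succ n ih =>
      intro X hX hXn
      rcases lt_or_ge X 2 with hX2 | hX2
      · have e1 : ({x : ℤ | |(x : ℝ)| ≤ X ∧ Mn f x}.ncard : ℝ) ≤ 3 := by
          have hsub : {x : ℤ | |(x : ℝ)| ≤ X ∧ Mn f x} ⊆ (({-1, 0, 1} : Finset ℤ) : Set ℤ) := by
            rintro x ⟨hx, -⟩
            have h5 : |(x : ℝ)| < 2 := by linarith
            have h6 : |x| < 2 := by exact_mod_cast h5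
            rw [abs_lt] at h6
            have : x = -1 ∨ x = 0 ∨ x = 1 := by omega
            simpa using this
          have h7 := Set.ncard_le_ncard hsub (Finset.finite_toSet _)
          rw [Set.ncard_coe_finset] at h7
          have h8 : (({-1, 0, 1} : Finset ℤ)).card = 3 := by decide
          rw [h8] at h7
          exact_mod_cast h7
        have e2 : 1 ≤ X ^ (1 - c) := Real.one_le_rpow hX hη.le
        nlinarith
      · have e0 : 1 ≤ X / 2 := by linarith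
        have e1 := ih (X / 2) e0 (by rw [pow_succ] at hXn; linarith)
        have e2 := h X (X / 2) hX e0
        have e3 : ({x : ℤ | |(x : ℝ)| ≤ X ∧ Mn f x}.ncard : ℝ) ≤
            ({x : ℤ | |(x : ℝ)| ≤ X / 2 ∧ Mn f x}.ncard : ℝ) + av f X (X / 2) := by
          unfold av
          have hsub : {x : ℤ | |(x : ℝ)| ≤ X ∧ Mn f x} ⊆ {x : ℤ | |(x : ℝ)| ≤ X / 2 ∧ Mn f x} ∪
              {x : ℤ | |(x : ℝ)| ≤ X ∧ ∀ n : ℕ, X / 2 < |((f^[n] x : ℤ) : ℝ)|} := by
            rintro x ⟨hx1, hx2⟩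
            rcases le_or_gt |(x : ℝ)| (X / 2) with h5 | h5
            · left; exact ⟨h5, hx2⟩
            · right; exact ⟨hx1, fun n => h5.trans_le (hx2 n)⟩
          have h6 := Set.ncard_le_ncard hsub ((fin_set _ _).union (fin_set _ _))
          have h7 := h6.trans (Set.ncard_union_le _ _)
          exact_mod_cast h7
        have hX0 : 0 < X := by linarith
        have e4 : (X / 2) ^ (1 - c) = X ^ (1 - c) * 2 ^ (-(1 - c)) := by
          rw [Real.div_rpow hX0.le (by norm_num), Real.rpow_neg (by norm_num), div_eq_mul_inv]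
        have e5 : A * X / (X / 2) ^ c = A * 2 ^ c * X ^ (1 - c) := by
          rw [Real.div_rpow hX0.le (by norm_num), Real.rpow_sub hX0, Real.rpow_one]
          have : 0 < X ^ c := Real.rpow_pos_of_pos hX0 _
          field_simp
        rw [e4] at e1
        rw [e5] at e2
        have e6 : 0 ≤ X ^ (1 - c) := by positivity
        calc ({x : ℤ | |(x : ℝ)| ≤ X ∧ Mn f x}.ncard : ℝ)
            ≤ B * (X ^ (1 - c) * 2 ^ (-(1 - c))) + A * 2 ^ c * X ^ (1 - c) := by linarith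
          _ ≤ B * (X ^ (1 - c) * 2 ^ (-(1 - c))) + B * (1 - 2 ^ (-(1 - c))) * X ^ (1 - c) := by
              have := mul_le_mul_of_nonneg_right hBA e6
              linarith
          _ = B * X ^ (1 - c) := by ring
  intro X hX
  obtain ⟨n, hn⟩ := pow_unbounded_of_one_lt X (by norm_num : (1 : ℝ) < 2)
  exact key n X hX hn

/-- the classes with a small least absolute value -/
theorem few_low {y B : ℝ} (h : ({x : ℤ | |(x : ℝ)| ≤ y ∧ Mn f x}.ncard : ℝ) ≤ B)
    (S : Finset (Set ℤ)) (hS : ∀ E ∈ S, IsCl f E ∧ (least E : ℝ) ≤ y) :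
    (S.card : ℝ) ≤ B := by
  classical
  have hm0 : ∀ E ∈ S, ∃ m ∈ E, |(m : ℝ)| = least E := fun E hE => exists_least (hS E hE).1
  choose! m hm hm' using hm0
  refine le_trans ?_ h
  rw [Set.ncard_eq_toFinset_card _ (fin_set (Mn f) y)]
  apply Nat.cast_le.2
  apply card_le_card_of_injOn m
  · intro E hE
    rw [mem_coe] at hE
    rw [mem_coe, Set.Finite.mem_toFinset]
    refine ⟨by rw [hm' E hE]; exact (hS E hE).2, fun n => ?_⟩
    rw [hm' E hE]
    exact least_le ((hS E hE).1.iter (hm E hE) n)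
  · intro E hE E' hE' he
    rw [mem_coe] at hE hE'
    have h2 := hm E' hE'
    rw [← he] at h2
    exact (hS E hE).1.eq (hS E' hE').1 (hm E hE) h2

/-- the classes with a large least absolute value -/
theorem sum_high (S : Finset (Set ℤ)) {X y : ℝ} (hS : ∀ E ∈ S, IsCl f E ∧ y < (least E : ℝ)) :
    ∑ E ∈ S, num E X ≤ av f X y := by
  classical
  have h0 : ∀ E : Set ℤ, num E X = (((fin_num E X).toFinset.card : ℕ) : ℝ) := by
    intro E
    unfold num
    rw [Set.ncard_eq_toFinset_card _ (fin_num E X)]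
  unfold av
  simp only [h0]
  rw [← Nat.cast_sum, ← card_biUnion]
  · rw [Set.ncard_eq_toFinset_card _ (fin_set (fun x => ∀ n : ℕ, y < |((f^[n] x : ℤ) : ℝ)|) X)]
    apply Nat.cast_le.2
    apply card_le_card
    intro x hx
    rw [mem_biUnion] at hx
    obtain ⟨E, hE, hx⟩ := hx
    rw [Set.Finite.mem_toFinset] at hx ⊢
    exact ⟨hx.2, fun n => lt_of_lt_of_le (hS E hE).2 (least_le ((hS E hE).1.iter hx.1 n))⟩
  · intro E hE E' hE' hne
    rw [Function.onFun, Finset.disjoint_left]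
    intro x hx hx'
    rw [Set.Finite.mem_toFinset] at hx hx'
    exact hne ((hS E hE).1.eq (hS E' hE').1 hx.1 hx'.1)

/-- the classes which meet `[-X, X]` and satisfy `P` form a finite set -/
theorem fin_meet (f : ℤ → ℤ) (X : ℝ) : {E : Set ℤ | IsCl f E ∧ ∃ x ∈ E, |(x : ℝ)| ≤ X}.Finite := by
  classical
  have h : ∀ E ∈ {E : Set ℤ | IsCl f E ∧ ∃ x ∈ E, |(x : ℝ)| ≤ X}, ∃ m ∈ E, |(m : ℝ)| ≤ X :=
    fun E hE => hE.2
  choose! m hm hm' using h
  apply Set.Finite.of_injOn (f := m) (t := {x : ℤ | |(x : ℝ)| ≤ X ∧ True})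
  · intro E hE
    exact ⟨hm' E hE, trivial⟩
  · intro E hE E' hE' he
    have h2 := hm E' hE'
    rw [← he] at h2
    exact hE.1.eq hE'.1 (hm E hE) h2
  · exact fin_set _ X

/-- the number of the classes with at least `ε X` elements in `[-X, X]` -/
theorem many {c A B : ℝ}
    (h : ∀ X y : ℝ, 1 ≤ X → 1 ≤ y → av f X y ≤ A * X / y ^ c)
    (hB : ∀ X : ℝ, 1 ≤ X → ({x : ℤ | |(x : ℝ)| ≤ X ∧ Mn f x}.ncard : ℝ) ≤ B * X ^ (1 - c))
    {X ε : ℝ} (hX : 1 ≤ X) (hε : 0 < ε) (hε1 : ε ≤ 1) (S : Finset (Set ℤ))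
    (hS : ∀ E ∈ S, IsCl f E ∧ ε * X ≤ num E X) : (S.card : ℝ) ≤ (A + B) * (1 / ε) ^ (1 - c) := by
  classical
  have hy : 1 ≤ 1 / ε := by rw [le_div_iff₀ hε]; linarith
  have hy0 : 0 < 1 / ε := by positivity
  set S₁ := S.filter fun E => (least E : ℝ) ≤ 1 / ε with hS₁
  set S₂ := S.filter fun E => ¬ (least E : ℝ) ≤ 1 / ε with hS₂
  have hcard : S₁.card + S₂.card = S.card := card_filter_add_card_filter_not _
  have h1 : (S₁.card : ℝ) ≤ B * (1 / ε) ^ (1 - c) :=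
    few_low (hB _ hy) _ fun E hE => ⟨(hS E (mem_filter.1 hE).1).1, (mem_filter.1 hE).2⟩
  have h2 : ∑ E ∈ S₂, num E X ≤ A * X / (1 / ε) ^ c :=
    (sum_high S₂ fun E hE => ⟨(hS E (mem_filter.1 hE).1).1, not_le.1 (mem_filter.1 hE).2⟩).trans
      (h X _ hX hy)
  have h3 : (S₂.card : ℝ) * (ε * X) ≤ ∑ E ∈ S₂, num E X := by
    rw [← nsmul_eq_mul]
    exact card_nsmul_le_sum _ _ _ fun E hE => (hS E (mem_filter.1 hE).1).2
  have h4 : A * X / (1 / ε) ^ c = A * X * ε ^ c := by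
    rw [one_div, Real.inv_rpow hε.le, div_inv_eq_mul]
  have h5 : (1 / ε) ^ (1 - c) = ε ^ c / ε := by
    rw [one_div, Real.inv_rpow hε.le, ← Real.rpow_neg hε.le, neg_sub, Real.rpow_sub hε, Real.rpow_one]
  have h6 : (S₂.card : ℝ) ≤ A * (1 / ε) ^ (1 - c) := by
    rw [h4] at h2
    have h7 := h3.trans h2
    rw [h5, ← mul_div_assoc, le_div_iff₀ hε]
    have hX0 : 0 < X := by linarith
    have h8 : ((S₂.card : ℝ) * ε) * X ≤ (A * ε ^ c) * X := by nlinarith
    exact le_of_mul_le_mul_right h8 hX0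
  have h9 : (S.card : ℝ) = S₁.card + S₂.card := by rw [← hcard]; push_cast; ring
  rw [h9]
  calc (S₁.card : ℝ) + S₂.card ≤ B * (1 / ε) ^ (1 - c) + A * (1 / ε) ^ (1 - c) := add_le_add h1 h6
    _ = (A + B) * (1 / ε) ^ (1 - c) := by ring

end Pool.Agent.N317.CL
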